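import Pool.Agent.H67.FG.Run
import Pool.Agent.H3.Ac.Mat

/-!
# FG, module COM: decided values are the values at one common matching (helper27)
-/

set_option autoImplicit false
set_option linter.unusedSectionVars false

namespace Pool.Agent.H27.FG

open Finset Pool.Agent.H3.Ac Pool.Agent.H3.Frg Pool.Agent.H67.FG

variable {W V : Type} [Fintype V] [DecidableEq V]

/-- a decided value is the value at every matching above -/
private theorem dec_val {w r : ℕ} {f : Finset (Sym2 V) → Option Bool} (hf : Val w r f)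
    {π M : Finset (Sym2 V)} {b c : Bool} (hd : dec w f π = some b) (hM : IsM M) (hs : π ⊆ M)
    (hv : f M = some c) : c = b := by
  obtain ⟨t, h1, h2, h3⟩ := hf.wit M hM c hv
  have ht : IsM t := isM_sub hM h1
  have hc : Cmp t π := isM_sub hM (union_subset h1 hs)
  unfold dec at hd
  split_ifs at hd with h4 h5
  · have hb : true = b := Option.some.inj hd
    cases c with
    | true => exact hb
    | false => exact absurd hc (h4 t ht h2 h3)
  · have hb : false = b := Option.some.inj hd
    cases c with
    | true => exact absurd hc (h5 t ht h2 h3)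
    | false => exact hb

/-- an edge of a matching touches few points -/
private theorem card_tch_le {A : Finset V} {M : Finset (Sym2 V)} (hM : IsM M) : (tch A M).card ≤ A.card := by
  classical
  have h1 : ∀ e ∈ tch A M, ∃ v, v ∈ A ∧ v ∈ e := by
    intro e he
    unfold tch at he
    obtain ⟨v, hv, hve⟩ := (mem_filter.1 he).2
    exact ⟨v, hv, hve⟩
  choose g hg using h1
  have h2 : (tch A M).attach.card ≤ A.card := by
    refine card_le_card_of_injOn (fun e => g e.1 e.2) (fun e _ => (hg e.1 e.2).1) ?_
    intro e _ f _ hef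
    have he : e.1 ∈ M := (mem_filter.1 (by have := e.2; unfold tch at this; exact this)).1
    have hf : f.1 ∈ M := (mem_filter.1 (by have := f.2; unfold tch at this; exact this)).1
    refine Subtype.ext (hM.2 e.1 he f.1 hf (g e.1 e.2) (hg e.1 e.2).2 ?_)
    have h3 : g e.1 e.2 = g f.1 f.2 := hef
    rw [h3]
    exact (hg f.1 f.2).2
  rwa [card_attach] at h2

private theorem tch_sub {A : Finset V} {M : Finset (Sym2 V)} : tch A M ⊆ M := by
  unfold tch
  exact filter_subset _ _

private theorem wtn_card {w : ℕ} {f : Finset (Sym2 V) → Option Bool} {π : Finset (Sym2 V)} :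
    IsM (wtn w f π) ∧ (wtn w f π).card ≤ w := by
  unfold wtn
  split_ifs with h
  · exact ⟨h.choose_spec.1, h.choose_spec.2.1⟩
  · exact ⟨isM_empty, by simp⟩

/-- a decided value comes from a small part of `M` -/
theorem run_spec {w : ℕ} {f : Finset (Sym2 V) → Option Bool} {M : Finset (Sym2 V)} (hM : IsM M) (n : ℕ)
    (π : Finset (Sym2 V)) (hπ : π ⊆ M) (b : Bool) (h : run w f M n π = some b) :
    ∃ π', π ⊆ π' ∧ π' ⊆ M ∧ π'.card ≤ π.card + n * (2 * w) ∧ dec w f π' = some b := by
  induction n generalizing π with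
  | zero => exact ⟨π, Subset.refl _, hπ, by omega, h⟩
  | succ n ih =>
    unfold run at h
    split_ifs at h with h1 h2
    · exact ⟨π, Subset.refl _, hπ, by omega, h⟩
    · obtain ⟨π', h3, h4, h5, h6⟩ := ih (π ∪ tch (cov (wtn w f π)) M) (union_subset hπ tch_sub) h
      refine ⟨π', subset_union_left.trans h3, h4, ?_, h6⟩
      have h7 : (cov (wtn w f π)).card ≤ 2 * w := by
        have h8 := wtn_card (w := w) (f := f) (π := π)
        rw [card_cov h8.1]
        omega
      have h9 := card_tch_le (A := cov (wtn w f π)) hM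
      have h10 := card_union_le π (tch (cov (wtn w f π)) M)
      have h11 : (n + 1) * (2 * w) = n * (2 * w) + 2 * w := by ring
      omega

/-- a matching above where all values are defined -/
private theorem ext_all {r w : ℕ} {val : Fm W → Finset (Sym2 V) → Option Bool} (l : List (Fm W))
    (hv : ∀ A ∈ l, Val w r (val A)) (M : Finset (Sym2 V)) (hM : IsM M)
    (hroom : 2 * (M.card + l.length * w) + r ≤ Fintype.card V) :
    ∃ N, IsM N ∧ M ⊆ N ∧ ∀ A ∈ l, val A N ≠ none := by
  induction l generalizing M with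
  | nil => exact ⟨M, hM, Subset.refl _, fun A hA => absurd hA (List.not_mem_nil)⟩
  | cons A l ih =>
    have hl : (A :: l).length * w = l.length * w + w := by
      rw [List.length_cons]
      ring
    rw [hl] at hroom
    obtain ⟨M1, h1, h2, h3, h4⟩ := (hv A List.mem_cons_self).tot M hM (by omega)
    obtain ⟨N, h5, h6, h7⟩ := ih (fun B hB => hv B (List.mem_cons_of_mem _ hB)) M1 h1 (by omega)
    refine ⟨N, h5, h2.trans h6, fun B hB => ?_⟩
    rcases List.mem_cons.1 hB with rfl | hB
    · obtain ⟨b, hb⟩ := Option.ne_none_iff_exists'.1 h4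
      rw [(hv B List.mem_cons_self).mono _ _ h5 h6 b hb]
      exact Option.some_ne_none b
    · exact h7 B hB

/-- one small part of `M` decides all formulas of the list -/
private theorem small_part {w : ℕ} {val : Fm W → Finset (Sym2 V) → Option Bool} (l : List (Fm W))
    {M : Finset (Sym2 V)} (hM : IsM M) (b : Fm W → Bool)
    (h : ∀ A ∈ l, run w (val A) M (w + 1) ∅ = some (b A)) :
    ∃ Q, Q ⊆ M ∧ Q.card ≤ l.length * ((w + 1) * (2 * w)) ∧
      ∀ A ∈ l, ∃ π, π ⊆ Q ∧ dec w (val A) π = some (b A) := by
  induction l with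
  | nil => exact ⟨∅, empty_subset _, by simp, fun A hA => absurd hA (List.not_mem_nil)⟩
  | cons A l ih =>
    obtain ⟨Q, h1, h2, h3⟩ := ih fun B hB => h B (List.mem_cons_of_mem _ hB)
    obtain ⟨π, -, h5, h6, h7⟩ := run_spec hM (w + 1) ∅ (empty_subset _) (b A) (h A List.mem_cons_self)
    refine ⟨Q ∪ π, union_subset h1 h5, ?_, fun B hB => ?_⟩
    · have h8 := card_union_le Q π
      rw [card_empty, zero_add] at h6
      have hl : (A :: l).length * ((w + 1) * (2 * w)) = l.length * ((w + 1) * (2 * w)) + (w + 1) * (2 * w) := by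
        rw [List.length_cons]
        ring
      rw [hl]
      omega
    · rcases List.mem_cons.1 hB with rfl | hB
      · exact ⟨π, subset_union_right, h7⟩
      · obtain ⟨ρ, h8, h9⟩ := h3 B hB
        exact ⟨ρ, h8.trans subset_union_left, h9⟩

/-- decided values of at most three formulas are the values at one matching -/
theorem common {w : ℕ} {val : Fm W → Finset (Sym2 V) → Option Bool} {S : Set (Fm W)}
    (hval : ∀ A ∈ S, Val w (8 * w) (val A)) (hL : 100 * (w + 1) ^ 2 ≤ Fintype.card V) (l : List (Fm W))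
    (hl : l.length ≤ 3) (hS : ∀ A ∈ l, A ∈ S) {M : Finset (Sym2 V)} (hM : IsM M) (b : Fm W → Bool)
    (h : ∀ A ∈ l, run w (val A) M (w + 1) ∅ = some (b A)) : ∃ N, IsM N ∧ ∀ A ∈ l, val A N = some (b A) := by
  obtain ⟨Q, h1, h2, h3⟩ := small_part l hM b h
  have h4 : l.length * ((w + 1) * (2 * w)) ≤ 3 * ((w + 1) * (2 * w)) := Nat.mul_le_mul_right _ hl
  have h5 : l.length * w ≤ 3 * w := Nat.mul_le_mul_right _ hl
  obtain ⟨N, h6, h7, h8⟩ := ext_all (r := 8 * w) l (fun A hA => hval A (hS A hA)) Q (isM_sub hM h1) (by nlinarith)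
  refine ⟨N, h6, fun A hA => ?_⟩
  obtain ⟨c, hc⟩ := Option.ne_none_iff_exists'.1 (h8 A hA)
  obtain ⟨π, h9, h10⟩ := h3 A hA
  rw [hc, dec_val (hval A (hS A hA)) h10 h6 (h9.trans h7) hc]

end Pool.Agent.H27.FG
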